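import Pool.Agent.helper37.NA.Spec

/-!
# Project NA (MP_baa4d7_al), row NKC: chains of a quotient by an abelian `p`-subgroup
-/

set_option autoImplicit false

namespace Pool.Agent.NAB

open Pool.Agent.helper58.DC Pool.Agent.DI Pool.Agent.GR Pool.Agent.OB Pool.Agent.DR Pool.Agent.FI Pool.Agent.FI3 Pool.Agent.FI4 Pool.Agent.FI4I Pool.Agent.LE Pool.Agent.L5

theorem NKC_nrm {Γ : Type} [Group Γ] (C : Finset (Subgroup Γ)) (x : Γ) :
    x ∈ nrm C ↔ ∀ Q ∈ C, x ∈ nz Q := by
  simp only [nrm, Subgroup.mem_iInf]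

theorem NKC (hKG1 : KG1_stmt) : NKC_stmt := by
  classical
  intro p _ G Gb _ _ _ _ R₁ π hQn
  obtain ⟨_, _, hA, hB, hC, hZ, hF, _⟩ := hKG1 p G Gb R₁ π hQn
  have hinj : Function.Injective (Subgroup.comap π) := by
    intro N N' h
    exact le_antisymm ((hB N N').1 h.le) ((hB N' N).1 h.ge)
  have hback : ∀ (R' : Subgroup Gb) (Cb : Finset (Subgroup Gb)),
      NCh p ⊤ (R'.comap π) (Cb.image (Subgroup.comap π)) → NCh p ⊤ R' Cb := by
    intro R' Cb h
    refine ⟨⟨?_, ?_, ?_, ?_, ?_⟩, ?_⟩
    · intro Q hQ S hS hne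
      have h1 : Q.comap π ∈ Cb.image (Subgroup.comap π) := Finset.mem_image_of_mem _ hQ
      have h2 : S.comap π ∈ Cb.image (Subgroup.comap π) := Finset.mem_image_of_mem _ hS
      rcases h.ch.chain h1 h2 (fun h3 => hne (hinj h3)) with h4 | h4
      · exact Or.inl ((hB Q S).1 h4)
      · exact Or.inr ((hB S Q).1 h4)
    · have h1 := h.ch.mem
      rw [Finset.mem_image] at h1
      obtain ⟨Q, hQ, h2⟩ := h1
      have h3 : Q = R' := hinj h2
      rw [← h3]
      exact hQ
    · intro Q hQ
      exact (hB R' Q).1 (h.ch.bot _ (Finset.mem_image_of_mem _ hQ))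
    · intro Q _
      exact le_top
    · intro Q hQ
      exact ((hA Q).2.2.1).2 (h.ch.pg _ (Finset.mem_image_of_mem _ hQ))
    · intro Q hQ S hS hQS
      exact (hF Q S).2 (h.nm _ (Finset.mem_image_of_mem _ hQ) _ (Finset.mem_image_of_mem _ hS)
        ((hB Q S).2 hQS))
  refine ⟨?_, ?_, ?_⟩
  · intro R'
    refine ⟨?_, ?_, ?_⟩
    · intro Cb h
      have h : NCh p ⊤ R' Cb := h
      change NCh p ⊤ (R'.comap π) (Cb.image (Subgroup.comap π))
      refine ⟨⟨?_, ?_, ?_, ?_, ?_⟩, ?_⟩
      · intro X hX Y hY hne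
        rw [Finset.mem_coe, Finset.mem_image] at hX hY
        obtain ⟨Q, hQ, rfl⟩ := hX
        obtain ⟨S, hS, rfl⟩ := hY
        rcases h.ch.chain hQ hS (fun h3 => hne (by rw [h3])) with h4 | h4
        · exact Or.inl ((hB Q S).2 h4)
        · exact Or.inr ((hB S Q).2 h4)
      · rw [Finset.mem_image]
        exact ⟨R', h.ch.mem, rfl⟩
      · intro X hX
        rw [Finset.mem_image] at hX
        obtain ⟨Q, hQ, rfl⟩ := hX
        exact (hB R' Q).2 (h.ch.bot Q hQ)
      · intro X _
        exact le_top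
      · intro X hX
        rw [Finset.mem_image] at hX
        obtain ⟨Q, hQ, rfl⟩ := hX
        exact ((hA Q).2.2.1).1 (h.ch.pg Q hQ)
      · intro X hX Y hY hXY
        rw [Finset.mem_image] at hX hY
        obtain ⟨Q, hQ, rfl⟩ := hX
        obtain ⟨S, hS, rfl⟩ := hY
        exact (hF Q S).1 (h.nm Q hQ S hS ((hB Q S).1 hXY))
    · intro Cb _ Cb' _ h
      exact Finset.image_injective hinj h
    · intro C h
      have h : NCh p ⊤ (R'.comap π) C := h
      have h1 : (C.image (Subgroup.map π)).image (Subgroup.comap π) = C := by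
        rw [Finset.image_image]
        apply Finset.ext
        intro X
        rw [Finset.mem_image]
        constructor
        · rintro ⟨H, hH, h2⟩
          have h3 : (H.map π).comap π = X := h2
          rw [hC H ((hA R').1.trans (h.ch.bot H hH))] at h3
          rw [← h3]
          exact hH
        · intro hX
          exact ⟨X, hX, hC X ((hA R').1.trans (h.ch.bot X hX))⟩
      refine ⟨C.image (Subgroup.map π), ?_, h1⟩
      apply hback
      rw [h1]
      exact h
  · intro Cb
    refine ⟨Finset.card_image_of_injective _ hinj, ?_⟩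
    ext x
    rw [Subgroup.mem_comap, NKC_nrm, NKC_nrm]
    constructor
    · intro hx X hX
      rw [Finset.mem_image] at hX
      obtain ⟨Q, hQ, rfl⟩ := hX
      have h2 : x ∈ (nz Q).comap π := Subgroup.mem_comap.2 (hx Q hQ)
      rw [(hA Q).2.2.2] at h2
      exact h2
    · intro hx Q hQ
      have h2 : x ∈ (nz Q).comap π := by
        rw [(hA Q).2.2.2]
        exact hx _ (Finset.mem_image_of_mem _ hQ)
      exact Subgroup.mem_comap.1 h2
  · intro R hR hop
    have hRc : (R.map π).comap π = R := hC R hR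
    refine ⟨hRc, ?_, ?_⟩
    · obtain ⟨_, h1, h2⟩ := hop.1
      refine ⟨le_top, ?_, ?_⟩
      · rw [(hA (R.map π)).2.2.1, hRc]
        exact h1
      · change ⊤ ≤ nz (R.map π)
        have h3 : (⊤ : Subgroup Gb).comap π ≤ (nz (R.map π)).comap π := by
          rw [(hA (R.map π)).2.2.2, hRc]
          exact le_trans le_top h2
        exact (hB _ _).1 h3
    · intro Q hQ
      obtain ⟨_, h1, h2⟩ := hQ
      have h3 : Q.comap π ≤ R := by
        refine hop.2 ⟨le_top, ((hA Q).2.2.1).1 h1, ?_⟩
        change ⊤ ≤ nz (Q.comap π)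
        rw [← (hA Q).2.2.2]
        intro x _
        exact h2 (Subgroup.mem_top (π x))
      refine (hB Q (R.map π)).1 ?_
      rw [hRc]
      exact h3

end Pool.Agent.NAB
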