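import Pool.Agent.helper37.NA.Spec
import Pool.Agent.helper59.FI.Base

/-!
# Project NA (MP_baa4d7_al), row NOB: blocks of a normal subgroup `K` under the same block of `H` are conjugate
-/

set_option autoImplicit false

namespace Pool.Agent.NAB

open Pool.Agent.helper58.DC Pool.Agent.DI Pool.Agent.GR Pool.Agent.OB Pool.Agent.DR Pool.Agent.FI Pool.Agent.FI3 Pool.Agent.FI4 Pool.Agent.FI4I Pool.Agent.LE Pool.Agent.L5

theorem NOB_cjF {G : Type} [Group G] (g : G) (ψ : G → ℂ) : cjF g (cjF g⁻¹ ψ) = ψ := by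
  show funMap (MulAut.conj g) (funMap (MulAut.conj g⁻¹) ψ) = ψ
  rw [← funMap_mul, mul_inv_cancel, funMap_one']

theorem NOB_cjF' {G : Type} [Group G] (g : G) (ψ : G → ℂ) : cjF g⁻¹ (cjF g ψ) = ψ := by
  show funMap (MulAut.conj g⁻¹) (funMap (MulAut.conj g) ψ) = ψ
  rw [← funMap_mul, inv_mul_cancel, funMap_one']

/-- the set of the characters of `K` whose block is conjugate to that of `ψ` -/
def NOB_T {G : Type} [Group G] (M : Ideal (integralClosure ℤ ℂ)) (K H : Subgroup G) (ψ : G → ℂ) :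
    Set (G → ℂ) :=
  {φ | φ ∈ IrrOn K ∧ ∃ h ∈ H, SB M K φ (cjF h ψ)}

theorem NOB_SB {G : Type} [Group G] [Finite G] {M : Ideal (integralClosure ℤ ℂ)} {K : Subgroup G}
    {g : G} (hg : g ∈ nz K) {η ψ : G → ℂ} (h : SB M K η ψ) : SB M K (cjF g η) (cjF g ψ) := by
  have h1 := SB_conj h g
  rwa [cj_nz.2 hg] at h1

theorem NOB_irr {G : Type} [Group G] [Finite G] {K : Subgroup G}
    {g : G} (hg : g ∈ nz K) {ψ : G → ℂ} (h : ψ ∈ IrrOn K) : cjF g ψ ∈ IrrOn K := by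
  have h1 := IrrOn_funMap h g
  rwa [cj_nz.2 hg] at h1

theorem NOB_maps {G : Type} [Group G] [Finite G] {M : Ideal (integralClosure ℤ ℂ)} {K H : Subgroup G}
    (hH : H ≤ nz K) (ψ : G → ℂ) {g : G} (hg : g ∈ H) {φ : G → ℂ} (hφ : φ ∈ NOB_T M K H ψ) :
    cjF g φ ∈ NOB_T M K H ψ := by
  obtain ⟨h1, h, hh, h2⟩ := hφ
  refine ⟨NOB_irr (hH hg) h1, g * h, H.mul_mem hg hh, ?_⟩
  have h3 := NOB_SB (hH hg) h2
  have h4 : cjF (g * h) ψ = cjF g (cjF h ψ) := funMap_mul g h ψ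
  rw [h4]
  exact h3

theorem NOB_inv {G : Type} [Group G] [Finite G] {M : Ideal (integralClosure ℤ ℂ)} {K H : Subgroup G}
    (hH : H ≤ nz K) (ψ : G → ℂ) {g : G} (hg : g ∈ H) (x : G) :
    eS K (NOB_T M K H ψ) (g * x * g⁻¹) = eS K (NOB_T M K H ψ) x := by
  unfold eS
  congr 1
  refine finsum_mem_eq_of_bijOn (cjF g⁻¹) ⟨?_, ?_, ?_⟩ ?_
  · intro φ hφ
    exact NOB_maps hH ψ (H.inv_mem hg) hφ
  · intro φ _ φ' _ h
    have h1 := congrArg (cjF g) h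
    change cjF g (cjF g⁻¹ φ) = cjF g (cjF g⁻¹ φ') at h1
    rwa [NOB_cjF, NOB_cjF] at h1
  · intro φ hφ
    exact ⟨cjF g φ, NOB_maps hH ψ hg hφ, NOB_cjF' g φ⟩
  · intro φ _
    change φ 1 * φ (g * x * g⁻¹)⁻¹ = cjF g⁻¹ φ 1 * cjF g⁻¹ φ x⁻¹
    rw [cjF_apply, cjF_apply]
    have e1 : g⁻¹⁻¹ * 1 * g⁻¹ = 1 := by group
    have e2 : g⁻¹⁻¹ * x⁻¹ * g⁻¹ = (g * x * g⁻¹)⁻¹ := by group
    rw [e1, e2]

theorem NOB (hEIN : EIN_stmt) (hIDM : IDM_stmt) (hSBI : SBI_stmt) : NOB_stmt := by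
  intro p M hS G _ _ K H hKH hH ψ hψ ψ' hψ' hSB
  obtain ⟨hCF, hcc, _⟩ := hIDM G K (NOB_T M K H ψ) (fun φ hφ => hφ.1)
  have hBC : BC M K (NOB_T M K H ψ) := by
    refine ⟨fun φ hφ => hφ.1, ?_⟩
    intro φ hφ φ' hφ' h
    obtain ⟨_, h1, hh1, h2⟩ := hφ
    refine ⟨hφ', h1, hh1, ?_⟩
    have h3 : SB M K φ φ' := h
    exact h3.symm.trans h2
  have hInt := hEIN p M hS G K (NOB_T M K H ψ) hBC
  have hCFH : CF H (eS K (NOB_T M K H ψ)) := by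
    refine ⟨fun h hh x => NOB_inv hH ψ hh x, fun x hx => ?_⟩
    exact hCF.2 x fun h => hx (hKH h)
  have hψT : ψ ∈ NOB_T M K H ψ := by
    refine ⟨hψ, 1, H.one_mem, ?_⟩
    have h1 : cjF 1 ψ = ψ := funMap_one' ψ
    rw [h1]
    exact SB.refl _ _
  have h1 := (hSBI p M hS G H ψ ψ' hSB).1 _ hCFH hInt
  have hψ'T : ψ' ∈ NOB_T M K H ψ := by
    by_contra hn
    rw [hcc ψ hψ, hcc ψ' hψ', if_pos hψT, if_neg hn, sub_zero] at h1
    exact InM.not_one hS h1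
  obtain ⟨_, h, hh, h2⟩ := hψ'T
  refine ⟨h⁻¹, H.inv_mem hh, ?_⟩
  have h3 := NOB_SB (hH (H.inv_mem hh)) h2
  rwa [NOB_cjF'] at h3

end Pool.Agent.NAB
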